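import Pool.Agent.Q271.ZG.Hc
import Pool.Agent.Q271.ZG.All

/-!
# The bound of project ZG for Hodge structures with arbitrary Hodge numbers
-/

set_option linter.unusedSectionVars false

namespace Pool.Agent.Q60.GU

open Module Matrix Pool.Agent.Q60.ED Pool.Agent.Q271.ZG

/-- The bound: `b` is the dimension and `d` bounds the differences `p - q`. -/
def BG (b d N : ℕ) : Prop :=
  Real.exp (64 * (b : ℝ) ^ (2 / 3 : ℝ) * Real.log (2 * (b + d))) ≤ N

theorem num_bound {b d N : ℕ} (hb : 1 ≤ b) (hN : BG b d N) :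
    ∃ Y : ℕ, 1 ≤ Y ∧
      Real.exp (20 * min (Real.sqrt (b * b)) ((b : ℝ) ^ (2 / 3 : ℝ)) *
        Real.log (3 * b * (b * d + 1))) ≤ Y ∧ 6 * b ^ 4 * Y ≤ N := by
  have hb' : (1 : ℝ) ≤ b := by exact_mod_cast hb
  have hd0 : (0 : ℝ) ≤ d := Nat.cast_nonneg d
  have hM := one_le_min hb hb
  have hM2 := Pool.Agent.Q271.ZG.min_self b
  set M := min (Real.sqrt (b * b)) ((b : ℝ) ^ (2 / 3 : ℝ)) with hMdef
  set R : ℝ := (b : ℝ) ^ (2 / 3 : ℝ) with hR
  have hR1 : 1 ≤ R := hM.trans hM2
  set x : ℝ := 2 * (b + d) with hx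
  have hx2 : 2 ≤ x := by rw [hx]; linarith
  have hlog0 : 0 ≤ Real.log x := Real.log_nonneg (by linarith)
  -- the logarithm
  have h1 : (3 * b * (b * d + 1) : ℝ) ≤ x ^ 3 := by
    have h2 : (b : ℝ) * d + 1 ≤ (b + d) ^ 2 := by nlinarith
    have h3 : (0 : ℝ) ≤ b + d := by linarith
    calc (3 * b * (b * d + 1) : ℝ) ≤ 3 * (b + d) * (b + d) ^ 2 := by
          refine mul_le_mul (by linarith) h2 (by positivity) (by linarith)
      _ ≤ x ^ 3 := by
          rw [hx]
          nlinarith [pow_nonneg h3 3]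
  have h3 : Real.log (3 * b * (b * d + 1)) ≤ 3 * Real.log x := by
    rw [← Real.log_rpow (by linarith)]
    refine Real.log_le_log (by positivity) ?_
    refine h1.trans (le_of_eq ?_)
    norm_cast
  have h4 : Real.exp (20 * M * Real.log (3 * b * (b * d + 1))) ≤
      Real.exp (60 * R * Real.log x) := by
    apply Real.exp_le_exp.2
    have h5 : 20 * M * Real.log (3 * b * (b * d + 1)) ≤ 20 * M * (3 * Real.log x) :=
      mul_le_mul_of_nonneg_left h3 (by linarith)
    have h6 : 20 * M * (3 * Real.log x) ≤ 20 * R * (3 * Real.log x) :=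
      mul_le_mul_of_nonneg_right (by linarith) (by linarith)
    linarith
  have hE1 : 1 ≤ Real.exp (60 * R * Real.log x) := by
    rw [Real.one_le_exp_iff]
    positivity
  refine ⟨⌈Real.exp (60 * R * Real.log x)⌉₊, ?_, h4.trans (Nat.le_ceil _), ?_⟩
  · exact Nat.one_le_iff_ne_zero.2 fun h => by
      have := Nat.le_ceil (Real.exp (60 * R * Real.log x))
      rw [h] at this
      norm_num at this
      linarith [Real.exp_pos (60 * R * Real.log x)]
  · have h5 : (⌈Real.exp (60 * R * Real.log x)⌉₊ : ℝ) ≤ 2 * Real.exp (60 * R * Real.log x) := by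
      have := Nat.ceil_lt_add_one (Real.exp_pos (60 * R * Real.log x)).le
      linarith
    have h6 : (6 * b ^ 4 * ⌈Real.exp (60 * R * Real.log x)⌉₊ : ℝ) ≤ N := by
      calc (6 * b ^ 4 * ⌈Real.exp (60 * R * Real.log x)⌉₊ : ℝ)
          ≤ 6 * b ^ 4 * (2 * Real.exp (60 * R * Real.log x)) :=
            mul_le_mul_of_nonneg_left h5 (by positivity)
        _ = 12 * b ^ 4 * Real.exp (60 * R * Real.log x) := by ring
        _ ≤ x ^ 4 * Real.exp (60 * R * Real.log x) := by
            refine mul_le_mul_of_nonneg_right ?_ (by positivity)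
            have h7 : (2 * b : ℝ) ^ 4 ≤ x ^ 4 :=
              pow_le_pow_left₀ (by positivity) (by rw [hx]; linarith) 4
            have h8 : (0 : ℝ) ≤ (b : ℝ) ^ 4 := by positivity
            calc (12 * b ^ 4 : ℝ) ≤ 16 * b ^ 4 := by linarith
              _ = (2 * b) ^ 4 := by ring
              _ ≤ x ^ 4 := h7
        _ = Real.exp (4 * Real.log x) * Real.exp (60 * R * Real.log x) := by
            congr 1
            rw [mul_comm (4 : ℝ), Real.exp_mul, Real.exp_log (by linarith)]
            norm_cast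
        _ = Real.exp ((4 + 60 * R) * Real.log x) := by
            rw [← Real.exp_add]; ring_nf
        _ ≤ Real.exp (64 * R * Real.log x) := by
            apply Real.exp_le_exp.2
            exact mul_le_mul_of_nonneg_right (by linarith) hlog0
        _ ≤ N := hN
    exact_mod_cast h6

variable {ι : Type} [Fintype ι] [DecidableEq ι]

/-- **A closed system of Hodge tensors which contains the tensors of bounded degree**, for
arbitrary Hodge numbers. -/
theorem eq_top {V : PHS ι} (S : PSys V.Q) (hS : ∀ n, S.S n ≤ V.T n) {N : ℕ}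
    (hN : BG (Fintype.card ι) V.d N) (h : ∀ m ≤ N, V.T m ≤ S.S m) (n : ℕ) :
    V.T n ≤ S.S n := by
  rcases Nat.eq_zero_or_pos (Fintype.card ι) with hb | hb
  · have : IsEmpty ι := Fintype.card_eq_zero_iff.1 hb
    rcases Nat.eq_zero_or_pos n with rfl | hn
    · exact h 0 (Nat.zero_le _)
    · intro t _
      have h1 : t = 0 := by
        funext J
        exact (IsEmpty.false (J ⟨0, hn⟩)).elim
      rw [h1]
      exact Submodule.zero_mem _
  obtain ⟨Y, hY, h1, h2⟩ := num_bound hb hN
  obtain ⟨T, hT⟩ := S.exists_tsys hS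
  intro t ht'
  rw [← hT]
  apply TSys.of_mem_cplx
  have hOm : cx (PHS.Om V.Q) ∈ T.cplx.S 2 := by
    apply TSys.mem_cplx
    rw [hT]
    exact S.cas
  have hdet : (mat2 (cx (PHS.Om V.Q))).det ≠ 0 := by
    rw [PHS.mat2_Om, qc_inv PHS.qc_det]
    intro h0
    have h1 := congrArg Matrix.det
      (Matrix.mul_nonsing_inv (qc V.Q) (isUnit_iff_ne_zero.2 (PHS.qc_det (V := V))))
    rw [Matrix.det_mul, h0, mul_zero, Matrix.det_one] at h1
    exact zero_ne_one h1
  refine T.cplx.mem_of_fixed hOm hdet fun g hg => ?_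
  exact fix_of_HL jobs.hADAPT jobs.hOPT jobs.hCAS jobs.hFLAG jobs.hROOT jobs.hROT jobs.hHWM
    jobs.hHWE jobs.hARI jobs.hTOP jobs.hPOL jobs.hSTAR jobs.hINV V hb hY
    (jobs.hGAL ι V _ Y hb (nIdem_card V) h1) h2 (fun m hm s hs => by
      refine hg m _ (TSys.mem_cplx ?_)
      rw [hT]
      exact h m hm hs) ht'

end Pool.Agent.Q60.GU
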