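import Pool.Agent.Q60.GU.Sato

/-!
# Large tensor degrees
-/

set_option linter.unusedSectionVars false

namespace Pool.Agent.Q60.GU

open MvPolynomial Module Matrix Kronecker Pool.Agent.Q60.ED Pool.Agent.Q60.FI Pool.Agent.Q60.TD
  Pool.Agent.Q60.NP Pool.Agent.Q60.MV Pool.Agent.Q60.CJ Pool.Agent.Q60.TP Pool.Agent.Q60.GL

variable {κ : Type} [Fintype κ] [DecidableEq κ] {w : ℤ} {V : HodgeStructure κ w}
  {Q : Matrix κ κ ℚ} {ℓ : ℕ} [Fact ℓ.Prime] {Γ : Type} [Group Γ] {ρ : Γ →* Matrix κ κ ℚ_[ℓ]}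
  {G : Set (Matrix κ κ ℂ)}

/-- `N ≥ exp (64 b ^ (2/3) log (2 (b + d)))`, where `b` is the dimension of `V` and `d` is the maximum
of `|p - q|` for the types `(p, q)` of `V`; or the centre of the algebra of the endomorphisms of `V` is
totally real and `N ≥ k`. -/
def IsLarge (V : HodgeStructure κ w) (Q : Matrix κ κ ℚ) (k N : ℕ) : Prop :=
  Real.exp (64 * (Fintype.card κ : ℝ) ^ (2 / 3 : ℝ) *
    Real.log (2 * ((Fintype.card κ : ℝ) + level V))) ≤ N ∨ k ≤ N ∧ TotallyRealCentre V Q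

theorem det_of_large (hQ : IsPolarisation V Q) {N : ℕ}
    (h : IsLarge V Q (Fintype.card κ ^ 3) N) : Det hQ N := by
  rcases h with h | ⟨h, htr⟩
  · exact det_of_bound hQ h
  · exact det_of_real hQ htr h

theorem idc_of_large (hQ : IsPolarisation V Q) (hG : IsMotivicGroup V Q ρ G) {N : ℕ}
    (h : IsLarge V Q 2 N) : mumfordTate V.h = identityComponent G ↔ HodgeVirtually V G N := by
  rcases h with h | ⟨h, htr⟩
  · exact idc_gen hQ (det_of_bound hQ h) hG.group hG.hodge hG.sim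
  · exact idc_real hQ htr h hG.group hG.hodge hG.sim

/-- **Bounded tensor degree.** -/
theorem full_tfae (hQ : IsPolarisation V Q) (hG : IsQGroup G) (hV : ∀ z : ℂ, z ≠ 0 → V.h z ∈ G)
    (hsim : ∀ g ∈ G, ∃ c : ℂ, gᵀ * toField ℂ Q * g = c • toField ℂ Q ∧ (w = 0 → c = 1)) {N : ℕ}
    (hN : IsLarge V Q (Fintype.card κ ^ 3) N) :
    List.TFAE [∀ n, HodgeMotivated V G n, HodgeMotivated V G N, mumfordTate V.h = G] := by
  tfae_have 1 → 2 := fun h => h N
  tfae_have 2 → 3 := by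
    intro h
    rw [mt_eq_com hQ (det_of_large hQ hN) hG hV hsim]
    exact Set.Subset.antisymm (fun g hg => hg.1) fun g hg => ⟨hg, fun a ha b hb A hA =>
      h a ha b hb A hA g hg⟩
  tfae_have 3 → 1 := by
    intro h n a _ b _ A hA g hg
    rw [← h] at hg
    exact mt_comm (fun z hz => h_det V hz) hA hg
  tfae_finish

/-- **The motivic Sato-Tate conjecture.** -/
theorem sato_tfae (hQ : IsPolarisation V Q) (hρ : Similitudes w Q ρ)
    (hpure : w ≠ 0 → HasPureElement ρ) (hG : IsMotivicGroup V Q ρ G) {N : ℕ}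
    (hN : IsLarge V Q (Fintype.card κ ^ 3) N) :
    List.TFAE [mumfordTate V.h = G ∧ SatoTateGroupsAgree Q ρ G,
      mumfordTate V.h = G ∧ MonodromyIs ρ G,
      Semisimple ρ ∧ TateIsHodge V ρ ∧ (GT.TracesAbove V ρ ∨ TotallyRealCentre V Q) ∧
        HodgeMotivated V G N] := by
  have h1 := sato_iff hpure hQ hρ hG
  have h2 := three_gen hQ hρ hpure hG (det_of_large hQ hN)
  tfae_have 1 ↔ 2 := by rw [h1]
  tfae_have 2 ↔ 3 := h2
  tfae_finish

end Pool.Agent.Q60.GU
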