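import Pool.Agent.Q60.GL.Mot2
import Pool.Agent.Q60.GU.Bnd

/-!
# Groups between the Mumford-Tate group and the group of similitudes: the tensors of bounded degree,
# without a condition on the centre
-/

set_option linter.unusedSectionVars false

namespace Pool.Agent.Q60.GU

open MvPolynomial Module Matrix Pool.Agent.Q60.ED Pool.Agent.Q60.FI Pool.Agent.Q60.TD
  Pool.Agent.Q60.NP Pool.Agent.Q60.MV Pool.Agent.Q60.CJ Pool.Agent.Q60.TP Pool.Agent.Q60.GL
open Pool.Agent.Q55.Ke (tpow_zero tpow_tmul tpow_perm)

variable {κ : Type} [Fintype κ] [DecidableEq κ] {w : ℤ} {V : HodgeStructure κ w}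
  {Q : Matrix κ κ ℚ}

/-- The level: the maximum of the differences `|p - q|` of the types of the Hodge structure. -/
def level (V : HodgeStructure κ w) : ℕ := V.types.sup fun a => (a.1 - a.2).natAbs

lemma le_level {a : ℤ × ℤ} (ha : a ∈ V.types) : (a.1 - a.2).natAbs ≤ level V :=
  Finset.le_sup (f := fun a : ℤ × ℤ => (a.1 - a.2).natAbs) ha

/-- The projections to the pieces with a given difference. -/
noncomputable def Ed (V : HodgeStructure κ w) (n : ℕ) : Matrix κ κ ℂ :=
  ∑ a ∈ V.types with (a.1 - a.2 + (level V : ℤ)).toNat = n, V.e a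

lemma coch_eq' {z : ℂ} (hz : z ≠ 0) : coch (level V) (Ed V) z = cz V z := by
  have h1 : ∑ n ∈ Finset.range (2 * level V + 1), z ^ n • Ed V n =
      ∑ a ∈ V.types, z ^ (a.1 - a.2 + (level V : ℤ)).toNat • V.e a := by
    rw [← Finset.sum_fiberwise_of_maps_to (s := V.types) (t := Finset.range (2 * level V + 1))
      (g := fun a => (a.1 - a.2 + (level V : ℤ)).toNat) (fun a ha => by
        have := le_level ha
        rw [Finset.mem_range]
        omega)]
    refine Finset.sum_congr rfl fun n _ => ?_
    rw [Ed, Finset.smul_sum]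
    refine Finset.sum_congr rfl fun a ha => ?_
    rw [(Finset.mem_filter.1 ha).2]
  rw [coch, h1, Finset.smul_sum, cz, HodgeStructure.op]
  refine Finset.sum_congr rfl fun a ha => ?_
  rw [smul_smul]
  congr 1
  have h2 : ((a.1 - a.2 + (level V : ℤ)).toNat : ℤ) = a.1 - a.2 + level V := by
    have := le_level ha
    omega
  have h3 : z ^ (a.1 - a.2 + (level V : ℤ)).toNat = z ^ (a.1 - a.2) * z ^ level V := by
    rw [← zpow_natCast z (a.1 - a.2 + (level V : ℤ)).toNat, h2, zpow_add₀ hz, zpow_natCast]
  rw [h3]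
  field_simp

/-- The polarised Hodge structure in the other formulation, with the level as the bound. -/
noncomputable def phsd (hQ : IsPolarisation V Q) : PHS κ where
  d := level V
  E := Ed V
  Q := Q
  one := by
    rw [coch_eq' one_ne_zero, cz]
    simp only [_root_.one_zpow]
    exact op_one V
  mul := fun z z' hz hz' => by
    rw [coch_eq' (mul_ne_zero hz hz'), coch_eq' hz, coch_eq' hz', cz, cz, cz, op_mul]
    exact op_congr V fun a _ => mul_zpow _ _ _
  inv := fun z hz => by
    rw [coch_eq' hz]
    exact cz_inv hQ hz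
  gram := by
    rw [coch_eq' Complex.I_ne_zero]
    exact gram_of hQ

lemma phsd_T (hQ : IsPolarisation V Q) (n : ℕ) : (phsd hQ).T n = (phs hQ).T n := by
  ext t
  rw [PHS.mem_T, PHS.mem_T]
  refine forall_congr' fun z => forall_congr' fun hz => ?_
  have h1 : (phsd hQ).c z = (phs hQ).c z := (coch_eq' hz).trans (phs_c hQ hz).symm
  rw [h1]

/-- A closed system of Hodge tensors which contains all Hodge tensors of degree at most `N` contains
all Hodge tensors. -/
def Det (hQ : IsPolarisation V Q) (N : ℕ) : Prop :=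
  ∀ S : PSys Q, (∀ n, S.S n ≤ (phs hQ).T n) → (∀ n ≤ N, (phs hQ).T n ≤ S.S n) →
    ∀ n, (phs hQ).T n ≤ S.S n

theorem det_of_bound (hQ : IsPolarisation V Q) {N : ℕ}
    (hN : BG (Fintype.card κ) (level V) N) : Det hQ N := by
  intro S hS h n
  have h1 := eq_top (V := phsd hQ) S (fun n => (hS n).trans (phsd_T hQ n).ge) hN
    (fun m hm => (phsd_T hQ m).le.trans (h m hm)) n
  exact (phsd_T hQ n).ge.trans h1

theorem det_of_real (hQ : IsPolarisation V Q) (htr : TotallyRealCentre V Q) {N : ℕ}
    (hN : Fintype.card κ ^ 3 ≤ N) : Det hQ N := fun S hS h =>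
  PB.poly_bound' (phs hQ) S (psys (phs hQ)) hS (fun _ => rfl) (fun n hn => h n (hn.trans hN))
    (cen_of hQ htr)

/-- **The isometries which commute with the homomorphisms of bounded degree fix the Hodge tensors,
up to a sign.** -/
theorem good_of (hQ : IsPolarisation V Q) {N : ℕ} (hdet : Det hQ N) {H : Set (Matrix κ κ ℂ)}
    (hH : ∀ g ∈ H, gᵀ * toField ℂ Q * g = toField ℂ Q) (hcz : ∀ z, z ≠ 0 → cz V z ∈ H)
    (hm : ∀ a ≤ N, ∀ b ≤ N,
      ∀ A : Matrix (Fin a → κ) (Fin b → κ) ℚ, IsHom V A →
      ∀ g ∈ H, TP g a * toField ℂ A = toField ℂ A * TP g b) {g : Matrix κ κ ℂ} (hg : g ∈ H) :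
    Good hQ g ∨ (w ≠ 0 ∧ Good hQ (-g)) := by
  have hle : ∀ H' : Set (Matrix κ κ ℂ), (∀ z, z ≠ 0 → cz V z ∈ H') →
      ∀ n, fixT H' n ≤ (phs hQ).T n := by
    intro H' hH' n t ht
    rw [PHS.mem_T]
    intro z hz
    rw [phs_c hQ hz]
    exact ht _ (hH' z hz)
  rcases eq_or_ne w 0 with hw | hw
  · -- weight zero
    left
    intro n t ht
    have h1 : ∀ n ≤ N, (phs hQ).T n ≤ fixT H n := by
      intro n hn t ht g hg
      have h2 : tenM (opt Q (a := n) (b := 0) t * TP Q⁻¹ 0) = t := tenM_opt (pol_det hQ) _
      have h3 : IsHom V (opt Q (a := n) (b := 0) t) := hom_of_tensor0 hQ hw (by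
        rw [h2]
        exact ht)
      have h4 := fix_of_comm hQ (hH g hg) (hm n hn 0 (Nat.zero_le _) _ h3 g hg)
      rw [h2] at h4
      exact h4
    exact hdet (fixP (pol_det hQ) H hH) (hle H hcz) h1 n ht g hg
  · by_cases hodd : ∀ n ≤ N, ¬ Even n → (phs hQ).T n = ⊥
    · -- there are no tensors of odd degree
      left
      intro n t ht
      have h0 : ∀ n, (phs hQ).T n ≤ (evP (psys (phs hQ))).S n := by
        refine hdet (evP (psys (phs hQ))) (fun n => ?_) (fun n hn => ?_)
        · change (if Even n then (phs hQ).T n else ⊥) ≤ _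
          split_ifs
          · exact le_rfl
          · exact bot_le
        · change _ ≤ (if Even n then (phs hQ).T n else ⊥)
          split_ifs with h
          · exact le_rfl
          · rw [hodd n hn h]
      have h1 : ∀ n ≤ N, (phs hQ).T n ≤ fixT H n := by
        intro n hn t ht g hg
        by_cases hev : Even n
        · exact even_fixed hQ hH hm hev (by omega) ht hg
        · rw [hodd n hn hev, Submodule.mem_bot] at ht
          have h2 : cx t = 0 := by
            rw [ht]
            funext a
            simp [cx]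
          rw [h2, map_zero]
      exact hdet (fixP (pol_det hQ) H hH) (hle H hcz) h1 n ht g hg
    · -- there is a tensor of odd degree
      push Not at hodd
      obtain ⟨m, hmN, hmo, hmne⟩ := hodd
      obtain ⟨t₀, ht₀, ht₀'⟩ := Submodule.exists_mem_ne_zero_of_ne_bot hmne
      have hc0 := cx_ne ht₀'
      have hsign : ∀ g ∈ H, tpow g m (cx t₀) = cx t₀ ∨ tpow g m (cx t₀) = -cx t₀ := by
        intro g hg
        have h1 := even_fixed hQ hH hm (n := m + m) ⟨m, rfl⟩ (by omega)
          ((psys (phs hQ)).mul ht₀ ht₀) hg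
        rw [cx_tmul, tpow_tmul] at h1
        exact sq_sign hc0 h1
      set H' : Set (Matrix κ κ ℂ) := {g | g ∈ H ∧ tpow g m (cx t₀) = cx t₀} with hH'
      have hiso : ∀ g ∈ H', gᵀ * toField ℂ Q * g = toField ℂ Q := fun g hg => hH g hg.1
      have hcz' : ∀ z, z ≠ 0 → cz V z ∈ H' := by
        intro z hz
        refine ⟨hcz z hz, ?_⟩
        rw [← phs_c hQ hz]
        exact (PHS.mem_T.1 ht₀) z hz
      have h1 : ∀ n ≤ N, (phs hQ).T n ≤ fixT H' n := by
        intro n hn t ht g hg
        by_cases hev : Even n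
        · exact even_fixed hQ hH hm hev (by omega) ht hg.1
        · have h2 := even_fixed hQ hH hm (n := n + m) (by
              rw [Nat.even_add]
              exact ⟨fun h => absurd h hev, fun h => absurd h hmo⟩) (by omega)
            ((psys (phs hQ)).mul ht ht₀) hg.1
          rw [cx_tmul, tpow_tmul, hg.2] at h2
          exact tmul_cancel hc0 h2
      have h2 : ∀ g ∈ H', Good hQ g := fun g hg n t ht =>
        hdet (fixP (pol_det hQ) H' hiso) (hle H' hcz') h1 n ht g hg
      rcases hsign g hg with h3 | h3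
      · left
        exact h2 g ⟨hg, h3⟩
      · right
        refine ⟨hw, ?_⟩
        -- the argument for the opposite matrix
        set H'' : Set (Matrix κ κ ℂ) := insert (-g) H' with hH''
        have hneg : ∀ n, ∀ v : (Fin n → κ) → ℂ, tpow (-g) n v = (-1 : ℂ) ^ n • tpow g n v := by
          intro n v
          funext I
          rw [tpow_apply, Pi.smul_apply, tpow_apply, smul_eq_mul, Finset.mul_sum]
          refine Finset.sum_congr rfl fun J _ => ?_
          have h4 : ∏ k, (-g) (I k) (J k) = (-1 : ℂ) ^ n * ∏ k, g (I k) (J k) := by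
            simp only [Matrix.neg_apply]
            rw [Finset.prod_neg, Finset.card_univ, Fintype.card_fin]
          rw [h4, mul_assoc]
        have hiso2 : ∀ x ∈ H'', xᵀ * toField ℂ Q * x = toField ℂ Q := by
          intro x hx
          rcases Set.mem_insert_iff.1 hx with rfl | hx
          · rw [Matrix.transpose_neg, Matrix.neg_mul, Matrix.neg_mul, Matrix.mul_neg, neg_neg]
            exact hH g hg
          · exact hiso x hx
        have hodd1 : ¬ Even m := hmo
        have h5 : ∀ n ≤ N, (phs hQ).T n ≤ fixT H'' n := by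
          intro n hn t ht x hx
          rcases Set.mem_insert_iff.1 hx with rfl | hx
          · by_cases hev : Even n
            · rw [hneg, hev.neg_one_pow, one_smul]
              exact even_fixed hQ hH hm hev (by omega) ht hg
            · have h6 := even_fixed hQ hH hm (n := n + m) (by
                  rw [Nat.even_add]
                  exact ⟨fun h => absurd h hev, fun h => absurd h hmo⟩) (by omega)
                ((psys (phs hQ)).mul ht ht₀) hg
              rw [cx_tmul, tpow_tmul, h3] at h6
              rw [hneg, (Nat.not_even_iff_odd.1 hev).neg_one_pow]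
              apply tmul_cancel hc0
              rw [← h6]
              funext I
              simp [tmul]
          · exact h1 n hn ht x hx
        intro n t ht
        exact hdet (fixP (pol_det hQ) H'' hiso2)
          (hle H'' fun z hz => Set.mem_insert_of_mem _ (hcz' z hz)) h5 n ht _
          (Set.mem_insert _ _)

/-- **A group between the Mumford-Tate group and the group of similitudes which commutes with the
homomorphisms of bounded degree is the Mumford-Tate group.** -/
theorem mt_eq_of (hQ : IsPolarisation V Q) {N : ℕ} (hdet : Det hQ N)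
    {G : Set (Matrix κ κ ℂ)} (hMG : mumfordTate V.h ⊆ G) (hmul : ∀ a ∈ G, ∀ b ∈ G, a * b ∈ G)
    (hGd : ∀ g ∈ G, g.det ≠ 0)
    (hsim : ∀ g ∈ G, ∃ c : ℂ, gᵀ * toField ℂ Q * g = c • toField ℂ Q ∧ (w = 0 → c = 1))
    (hm : ∀ a ≤ N, ∀ b ≤ N,
      ∀ A : Matrix (Fin a → κ) (Fin b → κ) ℚ, IsHom V A →
      ∀ g ∈ G, TP g a * toField ℂ A = toField ℂ A * TP g b) :
    mumfordTate V.h = G := by
  refine Set.Subset.antisymm hMG fun g hg => ?_
  have hgd : g.det ≠ 0 := hGd g hg
  set H : Set (Matrix κ κ ℂ) := {x | x ∈ G ∧ xᵀ * toField ℂ Q * x = toField ℂ Q} with hH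
  have hcz : ∀ z, z ≠ 0 → cz V z ∈ H := fun z hz => ⟨hMG (cz_mem hQ hz), cz_inv hQ hz⟩
  have key : ∀ x ∈ H, x ∈ mumfordTate V.h := by
    intro x hx
    rcases good_of hQ hdet (H := H) (fun x hx => hx.2) hcz
      (fun a ha b hb A hA x hx => hm a ha b hb A hA x hx.1) hx with h | ⟨hw, h⟩
    · exact h.mem hx.2
    · have h1 : -x ∈ mumfordTate V.h := h.mem (by
        rw [Matrix.transpose_neg, Matrix.neg_mul, Matrix.neg_mul, Matrix.mul_neg, neg_neg]
        exact hx.2)
      have h2 := mt_mul (scalar_mem hQ hw (μ := -1) (by norm_num)) h1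
      rw [Matrix.smul_mul, Matrix.one_mul, neg_one_smul, neg_neg] at h2
      exact h2
  obtain ⟨c, hc, hc0⟩ := hsim g hg
  rcases eq_or_ne w 0 with hw | hw
  · rw [hc0 hw, one_smul] at hc
    exact key g ⟨hg, hc⟩
  · rcases isEmpty_or_nonempty κ with hκ | hκ
    · have h1 : g = 1 := by
        ext i
        exact hκ.elim i
      rw [h1]
      exact mt_one
    have hcne : c ≠ 0 := by
      rintro rfl
      have h1 := congrArg Matrix.det hc
      rw [zero_smul, Matrix.det_mul, Matrix.det_mul, Matrix.det_transpose,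
        Matrix.det_zero] at h1
      exact mul_ne_zero (mul_ne_zero hgd (toField_det (pol_det hQ))) hgd h1
    obtain ⟨ν, hν⟩ := IsAlgClosed.exists_pow_nat_eq c⁻¹ (n := 2) two_pos
    have hν0 : ν ≠ 0 := by
      rintro rfl
      rw [zero_pow two_ne_zero] at hν
      exact inv_ne_zero hcne hν.symm
    have h1 : ν • g ∈ H := by
      refine ⟨?_, ?_⟩
      · have h2 := hmul _ (hMG (scalar_mem hQ hw hν0)) g hg
        rwa [Matrix.smul_mul, Matrix.one_mul] at h2
      · rw [Matrix.transpose_smul, Matrix.smul_mul, Matrix.smul_mul, Matrix.mul_smul, smul_smul,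
          hc, smul_smul, ← sq, hν, inv_mul_cancel₀ hcne, one_smul]
    have h2 := mt_mul (scalar_mem hQ hw (inv_ne_zero hν0)) (key _ h1)
    rw [Matrix.smul_mul, Matrix.one_mul, smul_smul, inv_mul_cancel₀ hν0, one_smul] at h2
    exact h2

end Pool.Agent.Q60.GU
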