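import Pool.Agent.Q60.GL.MotFinal
import Pool.Agent.Q60.GT.Thm
import Pool.Agent.Q60.GU.Gen

/-!
# The motivic Galois group, the Mumford-Tate group and the monodromy group, without a condition on
# the centre
-/

set_option linter.unusedSectionVars false

namespace Pool.Agent.Q60.GU

open MvPolynomial Module Matrix Kronecker Pool.Agent.Q60.ED Pool.Agent.Q60.FI Pool.Agent.Q60.TD
  Pool.Agent.Q60.NP Pool.Agent.Q60.MV Pool.Agent.Q60.CJ Pool.Agent.Q60.TP Pool.Agent.Q60.GL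

variable {κ : Type} [Fintype κ] [DecidableEq κ] {w : ℤ} {V : HodgeStructure κ w}
  {Q : Matrix κ κ ℚ}

/-- The homomorphisms of Hodge structures `V^(⊗ b) → V^(⊗ a)` for `a, b ≤ N` commute with a subgroup
of finite index of `G` (which may depend on the homomorphism). -/
def HodgeVirtually (V : HodgeStructure κ w) (G : Set (Matrix κ κ ℂ)) (N : ℕ) : Prop :=
  ∀ a ≤ N, ∀ b ≤ N, ∀ A : Matrix (Fin a → κ) (Fin b → κ) ℚ, IsHodgeHom V A →
    ∃ H, IsFiniteIndexIn G H ∧
      ∀ u ∈ H, tensorPower (u : Matrix κ κ ℂ) a * toField ℂ A =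
        toField ℂ A * tensorPower (u : Matrix κ κ ℂ) b

/-- The elements of the group which commute with the homomorphisms of bounded degree. -/
def com (V : HodgeStructure κ w) (G : Set (Matrix κ κ ℂ)) (N : ℕ) : Set (Matrix κ κ ℂ) :=
  {g | g ∈ G ∧ ∀ a ≤ N, ∀ b ≤ N, ∀ A : Matrix (Fin a → κ) (Fin b → κ) ℚ, IsHodgeHom V A →
    tensorPower g a * toField ℂ A = toField ℂ A * tensorPower g b}

section grp

variable {G : Set (Matrix κ κ ℂ)}

lemma det_ne (hG : IsQGroup G) {g : Matrix κ κ ℂ} (hg : g ∈ G) : g.det ≠ 0 := by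
  obtain ⟨⟨P, hP⟩, -⟩ := hG
  exact ((hP g).1 hg).1

/-- **The elements of the group which commute with the homomorphisms of bounded degree form the
Mumford-Tate group.** -/
theorem mt_eq_com (hQ : IsPolarisation V Q) {N : ℕ} (hdet : Det hQ N) (hG : IsQGroup G)
    (hV : ∀ z, z ≠ 0 → V.h z ∈ G)
    (hsim : ∀ g ∈ G, ∃ c : ℂ, gᵀ * toField ℂ Q * g = c • toField ℂ Q ∧ (w = 0 → c = 1)) :
    mumfordTate V.h = com V G N := by
  refine mt_eq_of hQ hdet (fun g hg => ⟨hg G hG hV, fun a _ b _ A hA =>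
    mt_comm (fun z hz => h_det V hz) hA hg⟩) ?_ (fun g hg => det_ne hG hg.1)
    (fun g hg => hsim g hg.1) fun a ha b hb A hA g hg => hg.2 a ha b hb A hA
  rintro g ⟨hg, hg'⟩ g' ⟨hh, hh'⟩
  refine ⟨hG.2.2.1 _ hg _ hh, fun a ha b hb A hA => ?_⟩
  have h1 : TP g a * toField ℂ A = toField ℂ A * TP g b := hg' a ha b hb A hA
  have h2 : TP g' a * toField ℂ A = toField ℂ A * TP g' b := hh' a ha b hb A hA
  change TP (g * g') a * toField ℂ A = toField ℂ A * TP (g * g') b
  rw [TP_mul, TP_mul, Matrix.mul_assoc, h2, ← Matrix.mul_assoc, h1, Matrix.mul_assoc]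

lemma idc_sub (hG : IsQGroup G) : identityComponent G ⊆ G := by
  rintro g ⟨hd, hg⟩
  obtain ⟨⟨P, hP⟩, h1, h2, h3⟩ := hG
  refine (hP g).2 ⟨hd, fun f hf => ?_⟩
  obtain ⟨Δ, hΔ, hΔ'⟩ := (fin_iff ⟨⟨P, hP⟩, h1, h2, h3⟩ fun u =>
    value u (MvPolynomial.map (algebraMap ℚ ℂ) f) = 0).2 ⟨⊤, inferInstance, fun s _ => by
      have h4 := ((hP _).1 s.2).2 f hf
      change aeval _ _ = 0
      rw [MvPolynomial.aeval_map_algebraMap]
      exact h4⟩
  have h5 := hg (MvPolynomial.map (algebraMap ℚ ℂ) f) ⟨Δ, hΔ, hΔ'⟩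
  change aeval _ _ = 0 at h5
  rw [MvPolynomial.aeval_map_algebraMap] at h5
  exact h5

/-- If the identity component is the Mumford-Tate group then the homomorphisms of Hodge structures
commute with subgroups of finite index. -/
theorem virt_of_idc (hG : IsQGroup G) (h : mumfordTate V.h = identityComponent G) (N : ℕ) :
    HodgeVirtually V G N := by
    intro a _ b _ A hA
    obtain ⟨Δ, hΔ, hmax⟩ := exists_max (rG hG)
    refine (fin_iff hG fun u => tensorPower u a * toField ℂ A = toField ℂ A * tensorPower u b).2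
      ⟨Δ, hΔ, fun s hs => ?_⟩
    have h1 : rG hG s ∈ identityComponent G := by
      rw [mem_idc hG]
      refine ⟨rho_det (ρ := rG hG) s, ?_⟩
      have h2 := inMon_rho (L := ℂ) hmax hs
      have h3 : (rG hG s).map (algebraMap ℂ ℂ) = rG hG s := by
        ext i j
        rfl
      rwa [h3] at h2
    rw [← h] at h1
    exact mt_comm (fun z hz => h_det V hz) hA h1

/-- **The identity component, totally real centre.** -/
theorem idc_real (hQ : IsPolarisation V Q) (htr : TotallyRealCentre V Q) {N : ℕ} (hN : 2 ≤ N)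
    (hG : IsQGroup G) (hV : ∀ z, z ≠ 0 → V.h z ∈ G)
    (hsim : ∀ g ∈ G, ∃ c : ℂ, gᵀ * toField ℂ Q * g = c • toField ℂ Q ∧ (w = 0 → c = 1)) :
    mumfordTate V.h = identityComponent G ↔ HodgeVirtually V G N := by
  refine ⟨fun h => virt_of_idc hG h N, fun h => (idc_iff hQ htr hG hV hsim).2 fun A hA => ?_⟩
  obtain ⟨H, hH, h1⟩ := h 2 hN 2 hN (sb A) (hodge_iff.1 hA)
  refine ⟨H, hH, fun u hu => sb_comm.2 ?_⟩
  rw [sb_toField]
  exact h1 u hu

/-- **The identity component.** -/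
theorem idc_gen (hQ : IsPolarisation V Q) {N : ℕ} (hdet : Det hQ N) (hG : IsQGroup G)
    (hV : ∀ z, z ≠ 0 → V.h z ∈ G)
    (hsim : ∀ g ∈ G, ∃ c : ℂ, gᵀ * toField ℂ Q * g = c • toField ℂ Q ∧ (w = 0 → c = 1)) :
    mumfordTate V.h = identityComponent G ↔ HodgeVirtually V G N := by
  constructor
  · exact fun h => virt_of_idc hG h N
  · intro h
    refine Set.Subset.antisymm (mt_le_idc hQ hG hV) fun g hg => ?_
    rw [mt_eq_com hQ hdet hG hV hsim]
    refine ⟨idc_sub hG hg, fun a ha b hb A hA => ?_⟩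
    obtain ⟨H, hH, h1⟩ := h a ha b hb A hA
    ext I J
    have h2 := hg.2 (MvPolynomial.map (algebraMap ℚ ℂ) (FM A (I, J))) ⟨H, hH, fun u hu => by
      change aeval _ _ = 0
      rw [MvPolynomial.aeval_map_algebraMap]
      have h3 := value_FM (g := (u : Matrix κ κ ℂ)) A (I, J)
      rw [value] at h3
      rw [h3]
      have h4 : TP (u : Matrix κ κ ℂ) a * toField ℂ A - toField ℂ A * TP (u : Matrix κ κ ℂ) b
          = 0 := sub_eq_zero.2 (h1 u hu)
      exact congrFun (congrFun h4 I) J⟩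
    change aeval _ _ = 0 at h2
    rw [MvPolynomial.aeval_map_algebraMap] at h2
    have h3 := value_FM (g := g) A (I, J)
    rw [value] at h3
    rw [h3] at h2
    exact sub_eq_zero.1 h2

/-- **Subgroups of finite index pull back to subgroups of finite index.** -/
theorem exists_pull {Γ : Type*} [Group Γ] {r : Γ →* Matrix κ κ ℂ} {H : Subgroup (Matrix κ κ ℂ)ˣ}
    (hH : IsFiniteIndexIn G H) {Δ : Subgroup Γ} (hΔ : Δ.FiniteIndex) (hr : ∀ s ∈ Δ, r s ∈ G) :
    ∃ Δ' : Subgroup Γ, Δ'.FiniteIndex ∧ ∀ s ∈ Δ', ∃ u ∈ H, r s = (u : Matrix κ κ ℂ) := by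
  classical
  obtain ⟨hH1, F, hF⟩ := hH
  let C : Subgroup Γ := H.comap r.toHomUnits
  have hC : ∀ s, s ∈ C ↔ r.toHomUnits s ∈ H := fun _ => Iff.rfl
  have hval : ∀ s, ((r.toHomUnits s : (Matrix κ κ ℂ)ˣ) : Matrix κ κ ℂ) = r s := fun _ => rfl
  have hrel : C.relIndex Δ ≠ 0 := by
    have h1 : ∀ q : Δ ⧸ C.subgroupOf Δ, ∃ a ∈ F, ∃ s : Δ, (∃ u ∈ H, r s = a * (u : Matrix κ κ ℂ)) ∧
        (s : Δ ⧸ C.subgroupOf Δ) = q := by
      intro q
      obtain ⟨s, rfl⟩ := QuotientGroup.mk_surjective q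
      obtain ⟨a, ha, u, hu, h1⟩ := hF _ (hr s s.2)
      exact ⟨a, ha, s, ⟨u, hu, h1⟩, rfl⟩
    choose f hf s hs hs' using h1
    have h2 : Finite (Δ ⧸ C.subgroupOf Δ) := by
      refine Finite.of_injective (fun q => (⟨f q, hf q⟩ : F)) fun q q' hqq => ?_
      have h3 : f q = f q' := congrArg Subtype.val hqq
      rw [← hs' q, ← hs' q', QuotientGroup.eq, Subgroup.mem_subgroupOf]
      obtain ⟨u, hu, h4⟩ := hs q
      obtain ⟨u', hu', h5⟩ := hs q'
      rw [hC]
      have h6 : r.toHomUnits (((s q)⁻¹ * s q' : Δ) : Γ) = u⁻¹ * u' := by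
        apply Units.ext
        rw [hval]
        have h7 : r ((s q : Δ) : Γ) * r (((s q)⁻¹ * s q' : Δ) : Γ) = r ((s q' : Δ) : Γ) := by
          rw [← map_mul]
          congr 1
          push_cast
          group
        have h8 : r ((s q : Δ) : Γ) * ((u⁻¹ * u' : (Matrix κ κ ℂ)ˣ) : Matrix κ κ ℂ) =
            r ((s q' : Δ) : Γ) := by
          rw [h4, h5, h3, Matrix.mul_assoc, ← Units.val_mul, mul_inv_cancel_left]
        have h9 : r (((s q : Δ) : Γ)⁻¹) * r ((s q : Δ) : Γ) = 1 := by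
          rw [← map_mul, inv_mul_cancel, map_one]
        have h10 := congrArg (fun M => r (((s q : Δ) : Γ)⁻¹) * M) (h7.trans h8.symm)
        simp only [← Matrix.mul_assoc, h9, Matrix.one_mul] at h10
        exact h10
      rw [h6]
      exact H.mul_mem (H.inv_mem hu) hu'
    have h3 : (C.subgroupOf Δ).FiniteIndex := Subgroup.finiteIndex_of_finite_quotient
    exact h3.index_ne_zero
  refine ⟨C ⊓ Δ, ⟨?_⟩, fun s hs => ⟨r.toHomUnits s, (hC s).1 hs.1, rfl⟩⟩
  have h1 := Subgroup.relIndex_mul_index (H := C ⊓ Δ) (K := Δ) inf_le_right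
  rw [Subgroup.inf_relIndex_right] at h1
  rw [← h1]
  exact mul_ne_zero hrel hΔ.index_ne_zero

end grp

section gal

variable {ℓ : ℕ} [Fact ℓ.Prime] {Γ : Type} [Group Γ] {ρ : Γ →* Matrix κ κ ℚ_[ℓ]}
  {G : Set (Matrix κ κ ℂ)}

/-- The monodromy group is contained in the Mumford-Tate group if the image of a subgroup of finite
index is. -/
lemma mon_of_gal {Δ : Subgroup Γ} (hΔ : Δ.FiniteIndex) (h : ∀ s ∈ Δ, InMumfordTate V.h (ρ s)) :
    MonodromyInMumfordTate V.h ρ := by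
  intro g _ hg f hf
  have h1 := hg (MvPolynomial.map (algebraMap ℚ (AlgebraicClosure ℚ_[ℓ])) f) ⟨Δ, hΔ, fun s hs => by
    change aeval _ _ = 0
    rw [MvPolynomial.aeval_map_algebraMap]
    have h2 := value_mapL (algebraMap ℚ_[ℓ] (AlgebraicClosure ℚ_[ℓ])) (fun a => by simp)
      (g := ρ s) (f := f)
    rw [value] at h2
    rw [h2, h s hs f hf, map_zero]⟩
  change aeval _ _ = 0 at h1
  rw [MvPolynomial.aeval_map_algebraMap] at h1
  exact h1

/-- The motivic Galois group over `ℂ` contains the image of the Galois group. -/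
lemma exists_r (hG : IsMotivicGroup V Q ρ G) : ∃ (r : Γ →* Matrix κ κ ℂ) (Δ : Subgroup Γ),
    Δ.FiniteIndex ∧ (∀ s ∈ Δ, r s ∈ G) ∧
      ∀ s, ∀ f : MvPolynomial (κ × κ) ℚ, value (r s) f = 0 → value (ρ s) f = 0 := by
  obtain ⟨τ⟩ := exists_iso ℓ
  obtain ⟨Δ, hΔ, hs⟩ := hG.galois
  let σ : ℚ_[ℓ] →+* ℂ := (τ : AlgebraicClosure ℚ_[ℓ] →+* ℂ).comp (algebraMap _ _)
  have hσ : ∀ a : ℚ, σ (algebraMap ℚ ℚ_[ℓ] a) = algebraMap ℚ ℂ a := fun a => by simp
  let r : Γ →* Matrix κ κ ℂ :=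
    { toFun := fun s => (ρ s).map σ
      map_one' := by
        rw [map_one]
        exact Matrix.map_one _ (map_zero _) (map_one _)
      map_mul' := fun a b => by
        rw [map_mul]
        exact Matrix.map_mul }
  have hr : ∀ s, r s = (ρ s).map σ := fun _ => rfl
  refine ⟨r, Δ, hΔ, fun s hsΔ => ?_, fun s f hf => ?_⟩
  · obtain ⟨⟨P, hP⟩, -⟩ := hG.group
    rw [hr, hP]
    refine ⟨det_map_ne σ (rho_det (ρ := ρ) s), fun f hf => ?_⟩
    rw [value_mapL σ hσ, hs s hsΔ f fun m hm => ((hP m).1 hm).2 f hf, map_zero]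
  · rw [hr, value_mapL σ hσ] at hf
    exact (map_eq_zero σ).1 hf

variable (hQ : IsPolarisation V Q) (hρ : Similitudes w Q ρ) (hpure : w ≠ 0 → HasPureElement ρ)
  (hG : IsMotivicGroup V Q ρ G) {N : ℕ} (hdet : Det hQ N)

include hG hdet

/-- **The Mumford-Tate group is the motivic Galois group.** -/
theorem first_gen : mumfordTate V.h = G ↔ HodgeMotivated V G N := by
  constructor
  · rintro rfl a _ b _ A hA g hg
    exact mt_comm (fun z hz => h_det V hz) hA hg
  · intro h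
    rw [mt_eq_com hQ hdet hG.group hG.hodge hG.sim]
    exact Set.Subset.antisymm (fun g hg => hg.1) fun g hg => ⟨hg, fun a ha b hb A hA =>
      h a ha b hb A hA g hg⟩

omit hdet in
/-- If the Mumford-Tate group is the identity component then it contains the monodromy group. -/
theorem mon_of_idc (h : mumfordTate V.h = identityComponent G) :
    MonodromyInMumfordTate V.h ρ := by
  obtain ⟨r, Δ, hΔ, hr, hrρ⟩ := exists_r hG
  obtain ⟨D, hD, hmax⟩ := exists_max (rG hG.group)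
  have hD' : ∀ s ∈ D, rG hG.group s ∈ mumfordTate V.h := by
    intro s hs
    rw [h, mem_idc hG.group]
    refine ⟨rho_det (ρ := rG hG.group) s, ?_⟩
    have h2 := inMon_rho (L := ℂ) hmax hs
    have h3 : (rG hG.group s).map (algebraMap ℂ ℂ) = rG hG.group s := by
      ext i j
      rfl
    rwa [h3] at h2
  obtain ⟨H, hH, hH'⟩ := (fin_iff hG.group fun u => u ∈ mumfordTate V.h).2 ⟨D, hD, hD'⟩
  obtain ⟨Δ', hΔ', h4⟩ := exists_pull hH hΔ hr
  refine mon_of_gal hΔ' fun s hs f hf => hrρ s f ?_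
  obtain ⟨u, hu, h5⟩ := h4 s hs
  rw [h5]
  exact hf _ (hH' u hu)

omit hdet in
/-- If the Mumford-Tate group is the motivic Galois group then it contains the monodromy group. -/
theorem mon_of_eq (h : mumfordTate V.h = G) : MonodromyInMumfordTate V.h ρ := by
  obtain ⟨Δ, hΔ, hs⟩ := hG.galois
  refine mon_of_gal hΔ fun s hsΔ f hf => hs s hsΔ f ?_
  rw [← h]
  exact hf

include hQ hρ hpure

omit hG hdet in
/-- The Mumford-Tate conjecture, if one inclusion is known. -/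
theorem mtc_of (hmon : MonodromyInMumfordTate V.h ρ) : MumfordTateConjecture V.h ρ ↔
    Semisimple ρ ∧ TateIsHodge V ρ ∧ (GT.TracesAbove V ρ ∨ TotallyRealCentre V Q) := by
  constructor
  · intro h
    obtain ⟨h1, -, h3, -, h5⟩ := (GT.mtc_gen hQ hρ hpure).1 h
    exact ⟨h1, h3, Or.inl h5⟩
  · rintro ⟨h1, h2, h3⟩
    obtain ⟨h4, h5⟩ := (GT.mon_gen_iff hQ hρ).1 hmon
    rcases h3 with h3 | h3
    · exact (GT.mtc_gen hQ hρ hpure).2 ⟨h1, h4, h2, h5, h3⟩
    · exact (mtc_tr_iff hQ hρ hpure h3).2 ⟨h1, h4, h2⟩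

/-- **The three groups agree.** -/
theorem three_gen : (mumfordTate V.h = G ∧ MonodromyIs ρ G) ↔
    Semisimple ρ ∧ TateIsHodge V ρ ∧ (GT.TracesAbove V ρ ∨ TotallyRealCentre V Q) ∧
      HodgeMotivated V G N := by
  constructor
  · rintro ⟨h1, h2⟩
    have h3 : MumfordTateConjecture V.h ρ := by
      intro g hg
      rw [h2 g hg, ← h1]
      exact Iff.rfl
    obtain ⟨h4, h5, h6⟩ := (mtc_of hQ hρ hpure (mon_of_eq hG h1)).1 h3
    exact ⟨h4, h5, h6, (first_gen hQ hG hdet).1 h1⟩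
  · rintro ⟨h4, h5, h6, h7⟩
    have h1 := (first_gen hQ hG hdet).2 h7
    refine ⟨h1, fun g hg => ?_⟩
    have h3 := (mtc_of hQ hρ hpure (mon_of_eq hG h1)).2 ⟨h4, h5, h6⟩ g hg
    rw [h3, ← h1]
    exact Iff.rfl

omit hdet in
/-- **The identity components agree.** -/
theorem three_idc_gen (hidc : mumfordTate V.h = identityComponent G ↔ HodgeVirtually V G N) :
    (mumfordTate V.h = identityComponent G ∧ MonodromyIs ρ (identityComponent G)) ↔
      Semisimple ρ ∧ TateIsHodge V ρ ∧ (GT.TracesAbove V ρ ∨ TotallyRealCentre V Q) ∧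
        HodgeVirtually V G N := by
  constructor
  · rintro ⟨h1, h2⟩
    have h3 : MumfordTateConjecture V.h ρ := by
      intro g hg
      rw [h2 g hg, ← h1]
      exact Iff.rfl
    obtain ⟨h4, h5, h6⟩ := (mtc_of hQ hρ hpure (mon_of_idc hG h1)).1 h3
    exact ⟨h4, h5, h6, hidc.1 h1⟩
  · rintro ⟨h4, h5, h6, h7⟩
    have h1 := hidc.2 h7
    refine ⟨h1, fun g hg => ?_⟩
    have h3 := (mtc_of hQ hρ hpure (mon_of_idc hG h1)).2 ⟨h4, h5, h6⟩ g hg
    rw [h3, ← h1]
    exact Iff.rfl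

end gal

end Pool.Agent.Q60.GU
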