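import Pool.Agent.Q60.GU.Mot

/-!
# The kernels of the multipliers
-/

set_option linter.unusedSectionVars false

namespace Pool.Agent.Q60.GU

open MvPolynomial Module Matrix Kronecker Pool.Agent.Q60.ED Pool.Agent.Q60.FI Pool.Agent.Q60.TD
  Pool.Agent.Q60.NP Pool.Agent.Q60.MV Pool.Agent.Q60.CJ Pool.Agent.Q60.TP Pool.Agent.Q60.GL

variable {κ : Type} [Fintype κ] [DecidableEq κ] {w : ℤ} {V : HodgeStructure κ w}
  {Q : Matrix κ κ ℚ} {ℓ : ℕ} [Fact ℓ.Prime] {Γ : Type} [Group Γ] {ρ : Γ →* Matrix κ κ ℚ_[ℓ]}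
  {G : Set (Matrix κ κ ℂ)}

/-- The matrix `g` belongs to the Zariski closure of the image of the subgroup `Δ`. -/
def InClosure (ρ : Γ →* Matrix κ κ ℚ_[ℓ]) (Δ : Subgroup Γ)
    (g : Matrix κ κ (AlgebraicClosure ℚ_[ℓ])) : Prop :=
  ∀ f : MvPolynomial (κ × κ) (AlgebraicClosure ℚ_[ℓ]),
    (∀ s ∈ Δ, value ((ρ s).map (algebraMap ℚ_[ℓ] (AlgebraicClosure ℚ_[ℓ]))) f = 0) →
      value g f = 0

/-- The isometries of `Q` in the Zariski closure of the image of `Δ` are the isometries of `Q` in the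
group `G`, for all sufficiently small subgroups `Δ` of finite index. -/
def SatoTateGroupsAgree (Q : Matrix κ κ ℚ) (ρ : Γ →* Matrix κ κ ℚ_[ℓ])
    (G : Set (Matrix κ κ ℂ)) : Prop :=
  ∃ Δ₀ : Subgroup Γ, Δ₀.FiniteIndex ∧ ∀ Δ ≤ Δ₀, Δ.FiniteIndex →
    ∀ g : Matrix κ κ (AlgebraicClosure ℚ_[ℓ]),
      gᵀ * toField (AlgebraicClosure ℚ_[ℓ]) Q * g = toField (AlgebraicClosure ℚ_[ℓ]) Q →
        (InClosure ρ Δ g ↔ IsPoint G g)

/-- For small subgroups of finite index the Zariski closure is the identity component. -/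
lemma exists_small (ρ : Γ →* Matrix κ κ ℚ_[ℓ]) : ∃ Δ₀ : Subgroup Γ, Δ₀.FiniteIndex ∧
    ∀ Δ ≤ Δ₀, Δ.FiniteIndex → ∀ g : Matrix κ κ (AlgebraicClosure ℚ_[ℓ]),
      (InClosure ρ Δ g ↔ InMonodromy ρ g) := by
  obtain ⟨Δ₀, hΔ₀, hmax⟩ := exists_max ρ
  refine ⟨Δ₀, hΔ₀, fun Δ hle hΔ g => ⟨fun h f hf => h f fun s hs => ?_, fun h f hf =>
    h f ⟨Δ, hΔ, hf⟩⟩⟩
  exact inMon_rho (L := AlgebraicClosure ℚ_[ℓ]) hmax (hle hs) f hf

/-- The product of a scalar and an element of the group. -/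
lemma inMon_smul {μ : AlgebraicClosure ℚ_[ℓ]}
    (hμ : InMon ρ (μ • (1 : Matrix κ κ (AlgebraicClosure ℚ_[ℓ]))))
    {g : Matrix κ κ (AlgebraicClosure ℚ_[ℓ])} (hg : InMon ρ g) : InMon ρ (μ • g) := by
  rintro f ⟨Δ, hΔ, hf⟩
  have h1 : ∀ s ∈ Δ, evM ((ρ s).map (algebraMap ℚ_[ℓ] (AlgebraicClosure ℚ_[ℓ])))
      (lam (μ • (1 : Matrix κ κ (AlgebraicClosure ℚ_[ℓ]))) f) = 0 := by
    intro s hs
    rw [evM_lam, Matrix.smul_mul, Matrix.one_mul]
    have h2 := hμ (lam ((ρ s).map (algebraMap ℚ_[ℓ] (AlgebraicClosure ℚ_[ℓ]))) f)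
      ⟨Δ, hΔ, fun t ht => by
        change evM _ _ = 0
        rw [evM_lam, ← Matrix.map_mul, ← map_mul]
        exact hf _ (Δ.mul_mem hs ht)⟩
    change evM _ _ = 0 at h2
    rwa [evM_lam, Matrix.mul_smul, Matrix.mul_one] at h2
  have h3 := hg _ ⟨Δ, hΔ, h1⟩
  change evM _ _ = 0 at h3
  rwa [evM_lam, Matrix.smul_mul, Matrix.one_mul] at h3

variable (hQ : IsPolarisation V Q) (hpure : w ≠ 0 → HasPureElement ρ)

include hpure in
/-- The scalars belong to the monodromy group if the weight is not zero. -/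
lemma scalar_mon (hρ : Similitudes w Q ρ) (hw : w ≠ 0) {μ : AlgebraicClosure ℚ_[ℓ]}
    (hμ : μ ≠ 0) (hQ : IsPolarisation V Q) :
    InMon ρ (μ • (1 : Matrix κ κ (AlgebraicClosure ℚ_[ℓ]))) := by
  obtain ⟨τ⟩ := exists_iso ℓ
  have h1 : (1 : Matrix κ κ ℚ_[ℓ]) ∈ LG ρ := one_of hQ hρ hpure hw
  have hμ' : τ μ ≠ 0 := (map_ne_zero τ).2 hμ
  have h2 := inMon_gx τ h1 (Complex.log (τ μ))
  have h3 : gx τ ((1 : Matrix κ κ ℚ_[ℓ]).map (algebraMap ℚ_[ℓ] (AlgebraicClosure ℚ_[ℓ])))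
      (Complex.log (τ μ)) = μ • 1 := by
    have h4 := gx_map (τ := τ) ((1 : Matrix κ κ ℚ_[ℓ]).map
      (algebraMap ℚ_[ℓ] (AlgebraicClosure ℚ_[ℓ]))) (Complex.log (τ μ))
    have h5 : ((1 : Matrix κ κ ℚ_[ℓ]).map
      (algebraMap ℚ_[ℓ] (AlgebraicClosure ℚ_[ℓ]))).map τ = (1 : Matrix κ κ ℂ) := by
      rw [Matrix.map_one _ (map_zero _) (map_one _), Matrix.map_one _ (map_zero _) (map_one _)]
    rw [h5] at h4
    have h6 : ex (1 : Matrix κ κ ℂ) (Complex.log (τ μ)) = τ μ • (1 : Matrix κ κ ℂ) := by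
      have h7 : ∀ x : ℂ, x • (1 : Matrix κ κ ℂ) = Matrix.diagonal fun _ => x := fun x => by
        rw [← Matrix.diagonal_one, ← Matrix.diagonal_smul]
        congr 1
        funext i
        simp
      rw [ex, h7, Matrix.exp_diagonal, h7]
      congr 1
      funext i
      rw [Pi.coe_exp, ← Complex.exp_eq_exp_ℂ, Complex.exp_log hμ']
    rw [h6] at h4
    apply Matrix.map_injective τ.injective
    change Matrix.map _ τ = Matrix.map _ τ
    rw [h4]
    ext i j
    by_cases hij : i = j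
    · subst hij
      simp
    · simp [Matrix.one_apply_ne hij]
  rwa [h3] at h2

/-- The points of `G` over the closure of `ℚ_ℓ` and over `ℂ`. -/
lemma point_iff (hG : IsQGroup G) (τ : AlgebraicClosure ℚ_[ℓ] ≃+* ℂ)
    {g : Matrix κ κ (AlgebraicClosure ℚ_[ℓ])} (hg : g.det ≠ 0) : IsPoint G g ↔ g.map τ ∈ G := by
  have hσ : ∀ a : ℚ, (τ : AlgebraicClosure ℚ_[ℓ] →+* ℂ) (algebraMap ℚ _ a) = algebraMap ℚ ℂ a :=
    fun a => by simp
  have hm : g.map (τ : AlgebraicClosure ℚ_[ℓ] →+* ℂ) = g.map τ := rfl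
  constructor
  · intro h
    obtain ⟨⟨P, hP⟩, -⟩ := hG
    rw [← hm, hP]
    refine ⟨det_map_ne _ hg, fun f hf => ?_⟩
    rw [value_mapL _ hσ, h f fun m hm => ((hP m).1 hm).2 f hf, map_zero]
  · intro h f hf
    have h1 := hf _ h
    rw [← hm, value_mapL _ hσ] at h1
    exact (map_eq_zero _).1 h1

include hpure in
/-- **The motivic Sato-Tate conjecture over large fields and the monodromy group.** -/
theorem sato_iff (hQ : IsPolarisation V Q) (hρ : Similitudes w Q ρ)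
    (hG : IsMotivicGroup V Q ρ G) : SatoTateGroupsAgree Q ρ G ↔ MonodromyIs ρ G := by
  obtain ⟨τ⟩ := exists_iso ℓ
  obtain ⟨Δ₀, hΔ₀, hsmall⟩ := exists_small ρ
  have hdQ : (toField (AlgebraicClosure ℚ_[ℓ]) Q).det ≠ 0 := toField_det (pol_det hQ)
  have hdet : ∀ g : Matrix κ κ (AlgebraicClosure ℚ_[ℓ]),
      gᵀ * toField (AlgebraicClosure ℚ_[ℓ]) Q * g = toField (AlgebraicClosure ℚ_[ℓ]) Q →
      g.det ≠ 0 := by
    intro g hg h0
    have h1 := congrArg Matrix.det hg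
    rw [Matrix.det_mul, h0, mul_zero] at h1
    exact hdQ h1.symm
  constructor
  · rintro ⟨Δ₁, hΔ₁, h⟩ g hgd
    have hΔ : (Δ₀ ⊓ Δ₁).FiniteIndex := inferInstance
    have key : ∀ x : Matrix κ κ (AlgebraicClosure ℚ_[ℓ]),
        xᵀ * toField (AlgebraicClosure ℚ_[ℓ]) Q * x = toField (AlgebraicClosure ℚ_[ℓ]) Q →
        (InMonodromy ρ x ↔ IsPoint G x) := fun x hx =>
      (hsmall _ inf_le_left hΔ x).symm.trans (h _ inf_le_right hΔ x hx)
    constructor
    · intro hg f hf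
      obtain ⟨Δ, hΔ', hs⟩ := hG.galois
      have h1 := hg (MvPolynomial.map (algebraMap ℚ (AlgebraicClosure ℚ_[ℓ])) f)
        ⟨Δ, hΔ', fun s hsΔ => by
          change aeval _ _ = 0
          rw [MvPolynomial.aeval_map_algebraMap]
          have h2 := value_mapL (algebraMap ℚ_[ℓ] (AlgebraicClosure ℚ_[ℓ])) (fun a => by simp)
            (g := ρ s) (f := f)
          rw [value] at h2
          rw [h2, hs s hsΔ f hf, map_zero]⟩
      change aeval _ _ = 0 at h1
      rw [MvPolynomial.aeval_map_algebraMap] at h1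
      exact h1
    · intro hg
      have h1 : g.map τ ∈ G := (point_iff hG.group τ hgd).1 hg
      obtain ⟨c, hc, hc0⟩ := hG.sim _ h1
      have hQm : (toField (AlgebraicClosure ℚ_[ℓ]) Q).map τ = toField ℂ Q := by
        ext i j
        exact (by simp : (τ : AlgebraicClosure ℚ_[ℓ] →+* ℂ) (algebraMap ℚ _ (Q i j)) =
          algebraMap ℚ ℂ (Q i j))
      have hc' : gᵀ * toField (AlgebraicClosure ℚ_[ℓ]) Q * g =
          τ.symm c • toField (AlgebraicClosure ℚ_[ℓ]) Q := by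
        apply Matrix.map_injective τ.injective
        change Matrix.map _ τ = Matrix.map _ τ
        have h2 : (gᵀ * toField (AlgebraicClosure ℚ_[ℓ]) Q * g).map τ =
            (g.map τ)ᵀ * toField ℂ Q * g.map τ := by
          rw [Matrix.map_mul, Matrix.map_mul, hQm, Matrix.transpose_map]
        rw [h2, hc, ← hQm]
        ext i j
        simp
      rcases eq_or_ne w 0 with hw | hw
      · rw [hc0 hw, map_one, one_smul] at hc'
        exact (key g hc').2 hg
      · rcases isEmpty_or_nonempty κ with hκ | hκ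
        · refine (key g ?_).2 hg
          ext i
          exact hκ.elim i
        have hcne : τ.symm c ≠ 0 := by
          intro h0
          rw [h0, zero_smul] at hc'
          have h2 := congrArg Matrix.det hc'
          rw [Matrix.det_mul, Matrix.det_mul, Matrix.det_transpose, Matrix.det_zero] at h2
          exact mul_ne_zero (mul_ne_zero hgd hdQ) hgd h2
        obtain ⟨ν, hν⟩ := IsAlgClosed.exists_pow_nat_eq (τ.symm c)⁻¹ (n := 2) two_pos
        have hν0 : ν ≠ 0 := by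
          rintro rfl
          rw [zero_pow two_ne_zero] at hν
          exact inv_ne_zero hcne hν.symm
        have h2 : (ν • g)ᵀ * toField (AlgebraicClosure ℚ_[ℓ]) Q * (ν • g) =
            toField (AlgebraicClosure ℚ_[ℓ]) Q := by
          rw [Matrix.transpose_smul, Matrix.smul_mul, Matrix.smul_mul, Matrix.mul_smul, smul_smul,
            hc', smul_smul, ← sq, hν, inv_mul_cancel₀ hcne, one_smul]
        have h3 : IsPoint G (ν • g) := by
          rw [point_iff hG.group τ (hdet _ h2)]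
          have h4 : (ν • g).map τ = (τ ν • (1 : Matrix κ κ ℂ)) * g.map τ := by
            rw [Matrix.smul_mul, Matrix.one_mul]
            ext i j
            simp
          rw [h4]
          refine hG.group.2.2.1 _ ?_ _ h1
          exact scalar_mem hQ hw ((map_ne_zero τ).2 hν0) G hG.group hG.hodge
        have h4 : InMonodromy ρ (ν • g) := (key _ h2).2 h3
        have h5 : InMon ρ (ν⁻¹ • (ν • g)) :=
          inMon_smul (scalar_mon hpure hρ hw (inv_ne_zero hν0) hQ) h4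
        rw [smul_smul, inv_mul_cancel₀ hν0, one_smul] at h5
        exact h5
  · intro h
    refine ⟨Δ₀, hΔ₀, fun Δ hle hΔ g hg => ?_⟩
    rw [hsmall Δ hle hΔ g]
    exact h g (hdet g hg)

end Pool.Agent.Q60.GU
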